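import Mathlib

namespace Pool.Agent.MP_23c9d7_co

/-- The faces of a subset `P` of Euclidean space (the empty face and `P` itself included),
ordered by inclusion. -/
abbrev Faces {d : ℕ} (P : Set (EuclideanSpace ℝ (Fin d))) : Type :=
  {G : Set (EuclideanSpace ℝ (Fin d)) // IsExposed ℝ P G}

/-- Some convex polytope in `ℝ^d` has combinatorial automorphism group isomorphic to `H`. -/
def HasPolytope (d : ℕ) (H : Type*) [Group H] : Prop :=
  ∃ s : Finset (EuclideanSpace ℝ (Fin d)),
    Nonempty ((Faces (convexHull ℝ (s : Set (EuclideanSpace ℝ (Fin d)))) ≃o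
      Faces (convexHull ℝ (s : Set (EuclideanSpace ℝ (Fin d))))) ≃* H)

end Pool.Agent.MP_23c9d7_co
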